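import Pool.Agent.helper88.EF.Defs
import Pool.Agent.helper10.FQ.D2
import Pool.Agent.helper58.QR.GA

/-! # Project EF, module RS: residues and generators of `Gam D p` -/

namespace Pool.Agent.helper88.EF

open Finset Pool.Agent.helper76.LP

theorem gam_one (D p r : ℕ) [NeZero D] (hr : r ∣ D) (h : r ∣ D / p) (v : (ZMod D)ˣ)
    (hv : v ∈ Gam D p) : ZMod.unitsMap hr v = 1 := by
  by_cases hp : p ∣ D
  · have := Gam_le_ker D p r hr hp h hv
    rwa [MonoidHom.mem_ker] at this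
  · unfold Gam at hv
    rw [dif_neg hp, Subgroup.mem_bot] at hv
    rw [hv, map_one]

/-- the residue map is injective on `Gam D p` if `p² ∤ D` -/
theorem RS_inj (D p : ℕ) [NeZero D] (hp : p.Prime) (hpD : p ∣ D) (h2 : ¬ p * p ∣ D)
    (v : (ZMod D)ˣ) (hv : v ∈ Gam D p) (h : ZMod.unitsMap hpD v = 1) : v = 1 := by
  have hpos : 0 < D := Nat.pos_of_ne_zero (NeZero.ne D)
  have h1 := gam_one D p (D / p) (Nat.div_dvd_of_dvd hpD) dvd_rfl v hv
  obtain ⟨k, hk⟩ := hpD
  have hkp : D / p = k := by rw [hk, Nat.mul_div_cancel_left _ hp.pos]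
  have hcop : Nat.Coprime p (D / p) := by
    rw [hkp, Nat.Prime.coprime_iff_not_dvd hp]
    rintro ⟨l, hl⟩
    apply h2
    rw [hk, hl]
    exact ⟨l, by ring⟩
  have e1 : ((v : ZMod D).val : ZMod p) = ((1 : ℕ) : ZMod p) := by
    have h3 := congrArg Units.val h
    rw [ZMod.unitsMap_def, Units.coe_map] at h3
    simp only [MonoidHom.coe_coe, Units.val_one] at h3
    rw [ZMod.natCast_val, Nat.cast_one]
    exact h3
  have e2 : ((v : ZMod D).val : ZMod (D / p)) = ((1 : ℕ) : ZMod (D / p)) := by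
    have h3 := congrArg Units.val h1
    rw [ZMod.unitsMap_def, Units.coe_map] at h3
    simp only [MonoidHom.coe_coe, Units.val_one] at h3
    rw [ZMod.natCast_val, Nat.cast_one]
    exact h3
  rw [ZMod.natCast_eq_natCast_iff] at e1 e2
  have e3 : (v : ZMod D).val ≡ 1 [MOD p * (D / p)] :=
    (Nat.modEq_and_modEq_iff_modEq_mul hcop).1 ⟨e1, e2⟩
  have e4 : p * (D / p) = D := by rw [hkp, ← hk]
  rw [e4, ← ZMod.natCast_eq_natCast_iff, ZMod.natCast_zmod_val, Nat.cast_one] at e3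
  exact Units.ext e3

/-- the residue map on `Gam D p` -/
noncomputable def RS_map (D p : ℕ) [NeZero D] (hpD : p ∣ D) : Gam D p →* (ZMod p)ˣ :=
  (ZMod.unitsMap hpD).comp (Gam D p).subtype

theorem RS_map_inj (D p : ℕ) [NeZero D] (hp : p.Prime) (hpD : p ∣ D) (h2 : ¬ p * p ∣ D) :
    Function.Injective (RS_map D p hpD) := by
  rw [injective_iff_map_eq_one]
  intro v hv
  apply Subtype.ext
  exact RS_inj D p hp hpD h2 v.1 v.2 hv

theorem RS_map_bij (D p : ℕ) [NeZero D] (hp : p.Prime) (hpD : p ∣ D) (h2 : ¬ p * p ∣ D) :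
    Function.Bijective (RS_map D p hpD) := by
  classical
  have : NeZero p := ⟨hp.ne_zero⟩
  have : Fact p.Prime := ⟨hp⟩
  rw [Nat.bijective_iff_injective_and_card]
  refine ⟨RS_map_inj D p hp hpD h2, ?_⟩
  rw [card_Gam D p hp hpD, if_neg (by rwa [pow_two]), Nat.card_eq_fintype_card,
    ZMod.card_units]

theorem gam_cyclic (D p : ℕ) [NeZero D] (hp : p.Prime) (hpD : p ∣ D) :
    ∃ g ∈ Gam D p, Gam D p ≤ Subgroup.closure {g} := by
  classical
  have hcyc : IsCyclic (Gam D p) := by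
    by_cases h2 : p * p ∣ D
    · have : Fact p.Prime := ⟨hp⟩
      apply isCyclic_of_prime_card (p := p)
      rw [card_Gam D p hp hpD, if_pos (by rwa [pow_two])]
    · have : Fact p.Prime := ⟨hp⟩
      exact isCyclic_of_injective (RS_map D p hpD) (RS_map_inj D p hp hpD h2)
  obtain ⟨g, hg⟩ := hcyc.exists_generator
  refine ⟨g.1, g.2, ?_⟩
  intro x hx
  obtain ⟨k, hk⟩ := hg ⟨x, hx⟩
  have h1 : g.1 ^ k = x := by
    have := congrArg Subtype.val hk
    simpa using this
  rw [← h1]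
  exact Subgroup.zpow_mem _ (Subgroup.subset_closure (Set.mem_singleton _)) _

theorem gam_closure (D p : ℕ) [NeZero D] (hp : p.Prime) (hpD : p ∣ D) (h2 : ¬ p * p ∣ D)
    (A : Set (ZMod p)ˣ) (hA : Subgroup.closure A = ⊤) :
    Gam D p ≤ Subgroup.closure {v | v ∈ Gam D p ∧ ZMod.unitsMap hpD v ∈ A} := by
  have hb := RS_map_bij D p hp hpD h2
  set φ := RS_map D p hpD with hφ
  have h1 : Subgroup.closure (φ ⁻¹' A) = ⊤ := by
    have h3 : Subgroup.map φ (Subgroup.closure (φ ⁻¹' A)) = ⊤ := by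
      rw [MonoidHom.map_closure, Set.image_preimage_eq _ hb.2, hA]
    rw [eq_top_iff]
    intro x _
    have h4 : φ x ∈ Subgroup.map φ (Subgroup.closure (φ ⁻¹' A)) := by
      rw [h3]; exact Subgroup.mem_top _
    obtain ⟨y, hy, hxy⟩ := h4
    rw [← hb.1 hxy]
    exact hy
  intro x hx
  have h5 : (⟨x, hx⟩ : Gam D p) ∈ Subgroup.closure (φ ⁻¹' A) := by
    rw [h1]; exact Subgroup.mem_top _
  have h6 : x ∈ Subgroup.map (Gam D p).subtype (Subgroup.closure (φ ⁻¹' A)) :=
    ⟨⟨x, hx⟩, h5, rfl⟩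
  rw [MonoidHom.map_closure] at h6
  refine Subgroup.closure_mono ?_ h6
  rintro _ ⟨y, hy, rfl⟩
  exact ⟨y.2, hy⟩

/-- `-1` in the product of the subgroups -/
theorem neg_one_not (D q : ℕ) [NeZero D] (L : List ℕ) (hL : (q :: L).toFinset = D.primeFactors)
    (h : (∃ r : ℕ, r.Prime ∧ 3 ≤ r ∧ r * r ∣ D) ∨ 8 ∣ D) :
    (-1 : (ZMod D)ˣ) ∉ Pl (Gam D) (q :: L) := by
  have hmem : ∀ p ∈ q :: L, p ∈ D.primeFactors := by
    intro p hp
    rw [← hL, List.mem_toFinset]
    exact hp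
  intro hP
  rcases h with ⟨r, hr, hr3, hrD⟩ | h8
  · have hr1 : r ∣ D := (Dvd.intro r rfl).trans hrD
    have h1 := Pl_Gam_cast D r hr1 (q :: L) (by
      intro p hp
      have hpp := Nat.prime_of_mem_primeFactors (hmem p hp)
      have hpD := Nat.dvd_of_mem_primeFactors (hmem p hp)
      refine ⟨hpD, ?_⟩
      by_cases hpr : p = r
      · subst hpr
        obtain ⟨k, hk⟩ := hrD
        refine ⟨k, ?_⟩
        rw [hk, mul_assoc, Nat.mul_div_cancel_left _ hpp.pos]
      · have h := (Nat.Coprime.mul_dvd_of_dvd_of_dvd ((Nat.coprime_primes hpp hr).2 hpr) hpD hr1)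
        obtain ⟨k, hk⟩ := h
        refine ⟨k, ?_⟩
        rw [hk, mul_assoc, Nat.mul_div_cancel_left _ hpp.pos]) _ hP
    rw [Units.val_neg, Units.val_one, map_neg, map_one] at h1
    have h2 : ((2 : ℕ) : ZMod r) = 0 := by
      push_cast
      linear_combination -h1
    rw [ZMod.natCast_eq_zero_iff] at h2
    have := Nat.le_of_dvd (by norm_num) h2
    omega
  · have h4D : 4 ∣ D := (show 4 ∣ 8 by norm_num).trans h8
    have h1 := Pl_Gam_cast D 4 h4D (q :: L) (by
      intro p hp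
      have hpp := Nat.prime_of_mem_primeFactors (hmem p hp)
      have hpD := Nat.dvd_of_mem_primeFactors (hmem p hp)
      refine ⟨hpD, ?_⟩
      by_cases hp2 : p = 2
      · subst hp2
        omega
      · have hcop : Nat.Coprime p 4 := by
          have : Nat.Coprime p 2 := (Nat.coprime_primes hpp Nat.prime_two).2 hp2
          exact (Nat.Coprime.pow_right 2 this : Nat.Coprime p (2 ^ 2))
        obtain ⟨k, hk⟩ := Nat.Coprime.mul_dvd_of_dvd_of_dvd hcop hpD h4D
        refine ⟨k, ?_⟩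
        rw [hk, mul_assoc, Nat.mul_div_cancel_left _ hpp.pos]) _ hP
    rw [Units.val_neg, Units.val_one, map_neg, map_one] at h1
    revert h1
    decide

end Pool.Agent.helper88.EF
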