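import Pool.Agent.helper88.EF.Defs
import Pool.Agent.helper10.FQ.D2
import Pool.Agent.helper58.QR.GA

/-! # Project EF, module QD: decompositions without the direction `q` -/

namespace Pool.Agent.helper88.EF

open Finset Pool.Agent.helper76.LP

theorem QD_dvd {D p q : ℕ} (hp : p.Prime) (hq : q.Prime) (hne : p ≠ q) (hpD : p ∣ D)
    (hqD : q ∣ D) : q ∣ D / p := by
  have h := (Nat.Coprime.mul_dvd_of_dvd_of_dvd ((Nat.coprime_primes hp hq).2 hne) hpD hqD)
  obtain ⟨k, hk⟩ := h
  refine ⟨k, ?_⟩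
  rw [hk, mul_assoc, Nat.mul_div_cancel_left _ hp.pos]

theorem qdec (D q : ℕ) [NeZero D] (hq : q.Prime) (h3 : 3 ≤ q) (L : List ℕ)
    (hnd : (q :: L).Nodup) (hL : (q :: L).toFinset = D.primeFactors) (f : (ZMod D)ˣ → ℤ)
    (hodd : ∀ x, f (-x) = - f x) (hf : MDv (Gam D) L f) :
    ∃ N : ℕ → (ZMod D)ˣ → ℤ, (∀ p ∈ L, ∀ u ∈ Gam D p, ∀ x, N p (u * x) = N p x) ∧
      (∀ z, f z = ∑ p ∈ L.toFinset, N p z) ∧ (∀ p ∈ L, ∀ x, N p (-x) = - N p x) := by
  have hmem : ∀ p ∈ q :: L, p ∈ D.primeFactors := by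
    intro p hp
    rw [← hL, List.mem_toFinset]
    exact hp
  have hqD : q ∣ D := Nat.dvd_of_mem_primeFactors (hmem q List.mem_cons_self)
  have hLn : L.Nodup := (List.nodup_cons.1 hnd).2
  have hqL : q ∉ L := (List.nodup_cons.1 hnd).1
  have hneg : (-1 : (ZMod D)ˣ) ∉ Pl (Gam D) L := by
    intro h
    have h1 := Pl_Gam_cast D q hqD L (by
      intro p hp
      have h2 := hmem p (List.mem_cons_of_mem _ hp)
      refine ⟨Nat.dvd_of_mem_primeFactors h2, ?_⟩
      apply QD_dvd (Nat.prime_of_mem_primeFactors h2) hq _ (Nat.dvd_of_mem_primeFactors h2) hqD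
      rintro rfl
      exact hqL hp) _ h
    rw [Units.val_neg, Units.val_one, map_neg, map_one] at h1
    have h2 : ((2 : ℕ) : ZMod q) = 0 := by
      push_cast
      linear_combination -h1
    rw [ZMod.natCast_eq_zero_iff] at h2
    have := Nat.le_of_dvd (by norm_num) h2
    omega
  have hI : Indep (Gam D) L := indep_Gam D _ hLn fun r hr => hmem r (List.mem_cons_of_mem _ hr)
  obtain ⟨N, h1, h2, h3⟩ := nd_half (Gam D) L (-1) (by simp) hneg f
    (fun x => by rw [neg_one_mul, hodd]) (nd_exists (Gam D) L hLn hI f hf)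
  refine ⟨N, h1, ?_, ?_⟩
  · intro z
    rw [h2 z, List.sum_toFinset _ hLn]
  · intro p hp x
    have := h3 p hp x
    rwa [neg_one_mul] at this

theorem QD_zero {G ι : Type*} [CommGroup G] (Γ : ι → Subgroup G) (L : List ι) (f : G → ℤ)
    (hf : ∀ x, f x = 0) : MDv Γ L f := by
  induction L generalizing f with
  | nil => exact hf
  | cons i L ih =>
    intro u _
    apply ih
    intro x
    rw [hf, hf, sub_zero]

theorem QD_two_one (D : ℕ) [NeZero D] (hD : D % 4 = 2) (u : (ZMod D)ˣ) (hu : u ∈ Gam D 2) :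
    u = 1 := by
  have h1 : 2 ∣ D := by omega
  have h2 : ¬ 2 ^ 2 ∣ D := by omega
  have h3 := card_Gam D 2 Nat.prime_two h1
  rw [if_neg h2] at h3
  have h4 : Nat.card (Gam D 2) = 1 := h3
  have h5 := Subgroup.eq_bot_of_card_eq _ h4
  rw [h5, Subgroup.mem_bot] at hu
  exact hu

/-- `D ≡ 2 mod 4` -/
theorem mdv_two (D q : ℕ) [NeZero D] (hD : D % 4 = 2) (L : List ℕ) (h2 : 2 ∈ L)
    (f : (ZMod D)ˣ → ℤ) : MDv (Gam D) L f := by
  induction L generalizing f with
  | nil => simp at h2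
  | cons i L ih =>
    intro u hu
    by_cases hi : i = 2
    · subst hi
      have h1 := QD_two_one D hD u hu
      apply QD_zero
      intro x
      rw [h1, one_mul, sub_self]
    · apply ih
      rcases List.mem_cons.1 h2 with h | h
      · exact absurd h.symm hi
      · exact h

end Pool.Agent.helper88.EF
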